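import Mathlib
import Pool.Agent.TH285.Ff.Lifo2
import Pool.Agent.TH285.Ff.Level
import Pool.Agent.TH285.Ff.Param

/-!
# MP_a0cf29_an: a finitary factor of an i.i.d. process without i.i.d. finitary factors
-/

namespace Pool.Agent.Results.MP_a0cf29_an.NoIidFactor

open MeasureTheory

/-- the left shift on two-sided sequences -/
def shift {A : Type} (x : ℤ → A) : ℤ → A := fun i => x (i + 1)

/-- `μ` is a (stationary) process: a shift-invariant probability measure on `A^ℤ` -/
def IsProcess {A : Type} [MeasurableSpace A] (μ : Measure (ℤ → A)) : Prop :=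
  IsProbabilityMeasure μ ∧ MeasurePreserving shift μ μ

/-- the i.i.d. process with one-dimensional marginal `p` -/
noncomputable def iid {B : Type} [MeasurableSpace B] (p : Measure B) : Measure (ℤ → B) :=
  Measure.infinitePi fun _ : ℤ => p

/-- the process `μ` is trivial: a point mass -/
def IsTrivial {A : Type} [MeasurableSpace A] (μ : Measure (ℤ → A)) : Prop :=
  ∃ x : ℤ → A, μ = Measure.dirac x

/-- `φ` is a finitary factor map from the process `μ` onto the process `ν` -/
structure IsFinitaryFactorMap {A C : Type} [MeasurableSpace A] [MeasurableSpace C]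
    (μ : Measure (ℤ → A)) (ν : Measure (ℤ → C)) (φ : (ℤ → A) → ℤ → C) : Prop where
  aemeasurable : AEMeasurable φ μ
  equivariant : ∀ᵐ x ∂μ, φ (shift x) = shift (φ x)
  map_eq : Measure.map φ μ = ν
  finitary : ∀ᵐ x ∂μ, ∃ r : ℕ, ∀ᵐ y ∂μ,
    (∀ i : ℤ, -(r : ℤ) ≤ i → i ≤ (r : ℤ) → y i = x i) → φ y 0 = φ x 0

/-- the process `ν` is a finitary factor of the process `μ` -/
def IsFinitaryFactor {A C : Type} [MeasurableSpace A] [MeasurableSpace C]
    (ν : Measure (ℤ → C)) (μ : Measure (ℤ → A)) : Prop :=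
  ∃ φ : (ℤ → A) → ℤ → C, IsFinitaryFactorMap μ ν φ

open Pool.Agent.TH285.Ff

section general

theorem trivial_of_singleton {B : Type} [Fintype B] [MeasurableSpace B]
    [MeasurableSingletonClass B] (q : Measure B) [IsProbabilityMeasure q] {b : B}
    (hb : q.real {b} = 1) : IsTrivial (iid q) := by
  refine ⟨fun _ => b, ?_⟩
  have h1 : ∀ᵐ y ∂(iid q), y = fun _ => b := by
    have h2 : ∀ᵐ y ∂(iid q), ∀ i : ℤ, y i = b := by
      rw [ae_all_iff]
      intro i
      rw [ae_iff]
      have h3 := zp_box_inj q (fun _ : Fin 1 => i) (fun a b _ => Subsingleton.elim a b)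
        (fun _ => {b}ᶜ) (fun _ => (measurableSet_singleton b).compl)
      have h4 : {ω : ℤ → B | ∀ _ : Fin 1, ω i ∈ ({b}ᶜ : Set B)} = {ω | ¬ ω i = b} := by
        ext ω
        simp
      have h5 : q.real {b}ᶜ = 0 := by
        rw [probReal_compl_eq_one_sub (measurableSet_singleton b), hb, sub_self]
      rw [h4] at h3
      simp only [h5, Finset.univ_unique, Finset.prod_const, Finset.card_singleton, pow_one] at h3
      rwa [measureReal_def, ENNReal.toReal_eq_zero_iff, or_iff_left (measure_ne_top _ _)] at h3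
    filter_upwards [h2] with y hy
    exact funext hy
  have h6 : Measure.map id (iid q) = Measure.map (fun _ => fun _ => b) (iid q) :=
    Measure.map_congr h1
  rw [Measure.map_id, Measure.map_const] at h6
  have h7 : iid q Set.univ = 1 := by
    have : IsProbabilityMeasure (iid q) := by
      unfold iid
      infer_instance
    exact measure_univ
  rw [h7, one_smul] at h6
  exact h6

theorem exists_mid {B : Type} [Fintype B] [MeasurableSpace B]
    [MeasurableSingletonClass B] (q : Measure B) [IsProbabilityMeasure q]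
    (hq : ¬ IsTrivial (iid q)) : ∃ b, 0 < q.real {b} ∧ q.real {b} < 1 := by
  by_contra hne
  push Not at hne
  have h1 : ∀ b, q.real {b} = 0 := by
    intro b
    by_contra h0
    have h2 : 0 < q.real {b} := lt_of_le_of_ne measureReal_nonneg (Ne.symm h0)
    have h3 := hne b h2
    exact hq (trivial_of_singleton q (le_antisymm measureReal_le_one h3))
  have h2 : ∑ b : B, q.real {b} = 1 := by
    rw [sum_measureReal_singleton]
    simp
  rw [Finset.sum_eq_zero fun b _ => h1 b] at h2
  exact zero_ne_one h2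

end general

section law

variable (P : Par)

/-- the law of the output process -/
noncomputable def lawY : Measure (ℤ → Bool) := Measure.map (Y P) mu

instance : IsProbabilityMeasure (lawY P) :=
  Measure.isProbabilityMeasure_map (measurable_Y P).aemeasurable

theorem ae_law {p : (ℤ → Bool) → Prop} (h : ∀ᵐ y ∂(lawY P), p y) : ∀ᵐ ω ∂mu, p (Y P ω) :=
  ae_of_ae_map (measurable_Y P).aemeasurable h

theorem isProcess_law : IsProcess (lawY P) := by
  refine ⟨inferInstance, ?_, ?_⟩
  · exact measurable_sh 1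
  · unfold lawY
    have h1 : Measurable (shift : (ℤ → Bool) → ℤ → Bool) := measurable_sh 1
    rw [Measure.map_map h1 (measurable_Y P)]
    have h2 : (shift ∘ Y P) = Y P ∘ sh 1 := by
      funext ω
      exact (Y_sh P 1 ω).symm
    rw [h2, ← Measure.map_map (measurable_Y P) (measurable_sh 1), (mu_sh 1).map_eq]

theorem mu_coord (n : ℕ) : mu.real {ω : ℤ → ℕ | ω 0 = n} = (1 / 2 : ℝ) ^ (n + 1) := by
  have h3 := zp_box_inj gm (fun _ : Fin 1 => (0 : ℤ)) (fun a b _ => Subsingleton.elim a b)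
    (fun _ => {n}) (fun _ => measurableSet_singleton n)
  have h4 : {ω : ℤ → ℕ | ∀ _ : Fin 1, ω 0 ∈ ({n} : Set ℕ)} = {ω | ω 0 = n} := by
    ext ω
    simp
  rw [h4] at h3
  simp only [gm_real_singleton, Finset.univ_unique, Finset.prod_const, Finset.card_singleton,
    pow_one] at h3
  exact h3

theorem nontrivial_law (h0 : 1 ≤ P.al 0) : ¬ IsTrivial (lawY P) := by
  rintro ⟨x, hx⟩
  have h1 : ∀ᵐ y ∂(lawY P), y = x := by
    rw [hx]
    have : MeasurableSet {y : ℤ → Bool | y = x} := measurableSet_singleton x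
    rw [ae_dirac_iff this]
  have h2 := ae_law P h1
  have h3 : (2 : ℕ) ≤ 2 ^ P.al 0 := by
    calc 2 = 2 ^ 1 := by norm_num
      _ ≤ 2 ^ P.al 0 := Nat.pow_le_pow_right (by norm_num) h0
  have hY : ∀ (n : ℕ), n < 2 → ∀ ω : ℤ → ℕ, ω 0 = n → Y P ω 0 = n.testBit 0 := by
    intro n hn ω hω
    unfold Y
    rw [U_small P (by rw [hω]; omega), hω]
  have hpos : ∀ n : ℕ, n < 2 → x 0 = n.testBit 0 := by
    intro n hn
    by_contra hne
    have h4 : mu.real {ω : ℤ → ℕ | ω 0 = n} ≤ 0 := by
      have h5 : mu {ω : ℤ → ℕ | ω 0 = n} = 0 := by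
        refine measure_mono_null ?_ (ae_iff.1 h2)
        intro ω hω
        rw [Set.mem_ofPred_eq] at hω ⊢
        intro h6
        apply hne
        rw [← h6]
        exact hY n hn ω hω
      rw [measureReal_def, h5]
      simp
    rw [mu_coord] at h4
    have : (0 : ℝ) < (1 / 2) ^ (n + 1) := by positivity
    linarith
  have h4 := hpos 0 (by norm_num)
  have h5 := hpos 1 (by norm_num)
  rw [h4] at h5
  simp at h5

theorem source_factor (hG : ∀ᵐ ω ∂mu, Good P ω) : IsFinitaryFactor (lawY P) (iid us) := by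
  refine ⟨fun s => Y P (lab s), ?_, ?_, ?_, ?_⟩
  · exact ((measurable_Y P).comp measurable_lab).aemeasurable
  · refine Filter.Eventually.of_forall fun s => ?_
    show Y P (lab (sh 1 s)) = sh 1 (Y P (lab s))
    rw [lab_sh, Y_sh]
  · have h1 : (fun s => Y P (lab s)) = Y P ∘ lab := rfl
    have h2 : Measure.map lab (iid us) = mu := map_lab
    rw [h1, ← Measure.map_map (measurable_Y P) measurable_lab, h2]
    rfl
  · have h1 : ∀ᵐ s ∂(iid us), Good P (lab s) := by
      have h2 : ∀ᵐ ω ∂(Measure.map lab (zp us)), Good P ω := by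
        rw [map_lab]
        exact hG
      exact ae_of_ae_map measurable_lab.aemeasurable h2
    have h2 : ∀ᵐ s ∂(iid us), ∀ i : ℤ, ∃ T v, Dn s i T v := ae_done
    filter_upwards [h1, h2] with s hs hd
    obtain ⟨M, -, x, y, hx, hy, hw⟩ := hs 0 0
    choose T v hT using hd
    refine ⟨(Finset.Icc x y).sup (fun j => j.natAbs + T j), Filter.Eventually.of_forall ?_⟩
    intro s' hs'
    have key : ∀ j, x ≤ j → j ≤ y → lab s j = lab s' j := by
      intro j hj1 hj2
      have h3 : j.natAbs + T j ≤ (Finset.Icc x y).sup (fun j => j.natAbs + T j) :=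
        Finset.le_sup (f := fun j => j.natAbs + T j) (Finset.mem_Icc.2 ⟨hj1, hj2⟩)
      rw [lab_eq (hT j)]
      refine (lab_eq (Dn_congr ?_ (hT j))).symm
      intro i hi1 hi2
      exact (hs' i (by omega) (by omega)).symm
    exact (Y_win P hw key hx.le hy.le).symm

end law

section nofactor

theorem sh_equi {C : Type} {B : Type} {φ : (ℤ → C) → ℤ → B} {y : ℤ → C}
    (h : ∀ k : ℤ, φ (sh (k + 1) y) = sh 1 (φ (sh k y))) (k : ℤ) : φ (sh k y) = sh k (φ y) := by
  induction k using Int.induction_on with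
  | zero => rw [sh_zero, sh_zero]
  | succ n ih => rw [h, ih, sh_sh, add_comm]
  | pred n ih =>
    have h1 := h (-(n : ℤ) - 1)
    rw [sub_add_cancel, ih] at h1
    have h2 := congrArg (sh (-1)) h1
    rw [sh_sh, sh_sh, show (-1 : ℤ) + 1 = 0 by norm_num, sh_zero] at h2
    rw [← h2]
    congr 1
    ring

theorem bar_right {P : Par} {m : ℕ} {ω : ℤ → ℕ} (hg : Good P ω) (R : ℕ) :
    (∃ y : ℤ, R ≤ y ∧ Bar P m (tr (P.al m) (U P m ω) y)) ∧
    (∃ x : ℤ, x ≤ -(R : ℤ) ∧ Bar P m (tr (P.al m) (U P m ω) x)) := by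
  have key : ∀ {M : ℕ} {x y : ℤ}, m ≤ M → Win P M x y ω → x ≤ y →
      Bar P m (tr (P.al m) (U P m ω) x) ∧ Bar P m (tr (P.al m) (U P m ω) y) := by
    intro M x y hM hw hxy
    have hbx : Bar P M (ω x) := by rw [hw.1]; exact bnum_bar P M
    have hby : Bar P M (ω y) := by rw [hw.2.1]; exact bnum_bar P M
    have hB : ∀ i : ℤ, x ≤ i → i ≤ y → Bar P M (ω i) → Bar P m (tr (P.al m) (U P m ω) i) := by
      intro i h1 h2 hb m' hm'
      have h3 : U P m ω i = ω i := by
        rw [U_win P hM hw h1 h2]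
        exact comp_bar P (M := M) (M - m) m ω i (by omega) hb
      unfold tr
      rw [h3, Nat.testBit_mod_two_pow, Nat.testBit_mod_two_pow]
      have h4 := P.al_lt hm'
      obtain ⟨h5, h6⟩ := hb m' (by omega)
      rw [h5, h6]
      have h7 : P.al m' + 1 < P.al m := by omega
      simp [h7]
    exact ⟨hB x le_rfl hxy hbx, hB y hxy le_rfl hby⟩
  constructor
  · obtain ⟨M, hM, x, y, hx, hy, hw⟩ := hg R m
    exact ⟨y, hy.le, (key hM hw (by omega)).2⟩
  · obtain ⟨M, hM, x, y, hx, hy, hw⟩ := hg (-(R : ℤ)) m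
    exact ⟨x, hx.le, (key hM hw (by omega)).1⟩

theorem no_iid {P : Par} (h0 : 1 ≤ P.al 0) (hG : ∀ᵐ ω ∂mu, Good P ω)
    (hP : ∀ m : ℕ, ∃ (lam ρ ε : ℝ) (task : ℕ → Code (P.al m) × ℚ), 0 < lam ∧ lam < 1 ∧ 0 < ρ ∧
      0 < ε ∧ ε ≤ 1 / 2 ∧
      (1 - 1 / ((m : ℝ) + 2)) ^ (th (P.al m) / (1 + th (P.al m)) / 2)
        < (1 - th (P.al m) ^ 2) * lam ^ 3 ∧
      (∃ x, 0 ≤ x ∧ x ≤ 1 ∧ ∀ n : ℕ,
        lam ^ n ≤ (1 - x) ^ n * (x * (1 / 2 : ℝ) ^ (2 ^ P.al m)) ^ (⌊ρ * n⌋₊)) ∧
      (∃ x, 0 < x ∧ x ≤ 1 ∧ ∀ n : ℕ, (1 + x) ^ n * lam ^ n ≤ x ^ (⌊ε * n⌋₊)) ∧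
      (∀ t N, ∃ n, N ≤ n ∧ task n = t) ∧
      P.D m = tgt (P.al m) lam ε task ∧
      mu.real {ω | (enc (P.al m) (U P m ω 0)).2 ≠ (enc (P.al m) (ω 0)).2} ≤ ρ / 4)
    {B : Type} [Fintype B] [MeasurableSpace B] [MeasurableSingletonClass B]
    (q : Measure B) [IsProbabilityMeasure q] (h : IsFinitaryFactor (iid q) (lawY P)) :
    IsTrivial (iid q) := by
  classical
  by_contra hnt
  obtain ⟨b, hb0, hb1⟩ := exists_mid q hnt
  obtain ⟨φ, hφm, hφe, hφl, hφf⟩ := h
  set φ' := hφm.mk φ with hφ'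
  have hφ'm : Measurable φ' := hφm.measurable_mk
  have hae1 : ∀ᵐ y ∂(lawY P), φ y = φ' y := hφm.ae_eq_mk
  set p := q.real {b} with hp
  obtain ⟨m, hm⟩ : ∃ m : ℕ, 1 / ((m : ℝ) + 2) ≤ p ∧ 1 / ((m : ℝ) + 2) ≤ 1 - p := by
    have hmin : 0 < min p (1 - p) := lt_min hb0 (by linarith)
    obtain ⟨m, hm⟩ := exists_nat_one_div_lt hmin
    have h1 : 1 / ((m : ℝ) + 2) ≤ 1 / ((m : ℝ) + 1) :=
      one_div_le_one_div_of_le (by positivity) (by linarith)
    exact ⟨m, by linarith [min_le_left p (1 - p)], by linarith [min_le_right p (1 - p)]⟩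
  obtain ⟨lam, ρ, ε, task, hlam0, hlam1, hρ, hε, hε1, hnum, hx1, hx2, htask, hD, hclose⟩ := hP m
  -- the relation to the shifts
  have hE : ∀ᵐ ω ∂mu, ∀ k : ℤ, φ (sh k (Y P ω)) = sh k (φ (Y P ω)) ∧
      φ (sh k (Y P ω)) = φ' (sh k (Y P ω)) := by
    have h1 : ∀ᵐ ω ∂mu, φ (sh 1 (Y P ω)) = sh 1 (φ (Y P ω)) := ae_law P hφe
    have h2 : ∀ᵐ ω ∂mu, φ (Y P ω) = φ' (Y P ω) := ae_law P hae1
    filter_upwards [mu_ae_sh h1, mu_ae_sh h2] with ω h3 h4 k
    simp only [Y_sh] at h3 h4
    refine ⟨sh_equi (fun k => ?_) k, h4 k⟩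
    have := h3 k
    rw [sh_sh, add_comm] at this
    exact this
  refine defeat P m hG (h := 1 / ((m : ℝ) + 2)) (p := p) (by positivity) hm.1 (by linarith [hm.2])
    hlam0 hlam1 hρ hε hε1 hnum hx1 hx2 task htask hD hclose
    (fun ω i => decide (φ' (Y P ω) i = b)) ?_ ?_ ?_ ?_
  · refine measurable_pi_lambda _ fun i => ?_
    have h1 : Measurable fun c : B => decide (c = b) := measurable_of_finite _
    exact h1.comp ((measurable_pi_apply i).comp (hφ'm.comp (measurable_Y P)))
  · filter_upwards [hE] with ω hω k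
    have h1 : φ' (Y P (sh k ω)) 0 = φ' (Y P ω) k := by
      rw [Y_sh, ← (hω k).2, (hω k).1]
      have h2 := (hω 0).2
      rw [sh_zero] at h2
      rw [← h2]
      show φ (Y P ω) (0 + k) = _
      rw [zero_add]
    simp only [h1]
  · intro n z
    set A : Fin n → Set B := fun k => match z k with
      | none => Set.univ
      | some true => {b}
      | some false => {b}ᶜ with hA
    have hAm : ∀ k, MeasurableSet (A k) := by
      intro k
      simp only [hA]
      rcases z k with _ | c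
      · exact MeasurableSet.univ
      · cases c
        · exact (measurableSet_singleton b).compl
        · exact measurableSet_singleton b
    have h1 := zp_box_inj q (fun k : Fin n => ((k : ℕ) : ℤ))
      (fun x y hxy => Fin.ext (Int.ofNat_inj.1 hxy)) A hAm
    have h2 : zp q = Measure.map (fun ω => φ' (Y P ω)) mu := by
      have h3 : Measure.map φ' (lawY P) = zp q := by
        rw [← Measure.map_congr hae1, hφl]
        rfl
      rw [← h3]
      unfold lawY
      rw [Measure.map_map hφ'm (measurable_Y P)]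
      rfl
    have hms : MeasurableSet {x : ℤ → B | ∀ k : Fin n, x ((k : ℕ) : ℤ) ∈ A k} := by
      have h3 : {x : ℤ → B | ∀ k : Fin n, x ((k : ℕ) : ℤ) ∈ A k}
          = ⋂ k : Fin n, (fun x : ℤ → B => x ((k : ℕ) : ℤ)) ⁻¹' (A k) := by
        ext x
        simp
      rw [h3]
      exact MeasurableSet.iInter fun k => measurable_pi_apply _ (hAm k)
    have hmc : Measurable fun ω => φ' (Y P ω) := hφ'm.comp (measurable_Y P)
    rw [h2, measureReal_def, Measure.map_apply hmc hms, ← measureReal_def] at h1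
    have h4 : {ω : ℤ → ℕ | ∀ k : Fin n, ∀ b', z k = some b' →
        (fun (ω : ℤ → ℕ) (i : ℤ) => decide (φ' (Y P ω) i = b)) ω ((k : ℕ) : ℤ) = b'}
        = (fun ω => φ' (Y P ω)) ⁻¹' {x : ℤ → B | ∀ k : Fin n, x ((k : ℕ) : ℤ) ∈ A k} := by
      ext ω
      simp only [Set.mem_ofPred_eq, Set.mem_preimage]
      refine forall_congr' fun k => ?_
      simp only [hA]
      rcases z k with _ | c
      · simp
      · cases c <;> simp
    rw [h4, h1]
    refine le_of_eq (Finset.prod_congr rfl fun k _ => ?_)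
    simp only [hA]
    rcases z k with _ | c
    · simp [wp]
    · cases c
      · simp only [wp]
        rw [probReal_compl_eq_one_sub (measurableSet_singleton b)]
      · simp only [wp]
        rfl
  · have hf : ∀ᵐ ω ∂mu, ∃ r : ℕ, ∀ᵐ y ∂(lawY P),
        (∀ i : ℤ, -(r : ℤ) ≤ i → i ≤ (r : ℤ) → y i = Y P ω i) → φ y 0 = φ (Y P ω) 0 := ae_law P hφf
    have hm1 : 1 ≤ P.al m := le_trans h0 (P.al_le (Nat.zero_le m))
    filter_upwards [hf, hG, hE] with ω h1 hg hω
    obtain ⟨R, hR⟩ := h1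
    have hR' := ae_law P hR
    obtain ⟨⟨y, hy1, hy2⟩, ⟨x, hx1, hx2⟩⟩ := bar_right (m := m) hg R
    refine ⟨max x.natAbs y.natAbs, ?_⟩
    filter_upwards [hR', hG, hE] with ω' h2 hg' hω' hagree
    have h3 : ∀ j, x ≤ j → j ≤ y → tr (P.al m) (U P m ω) j = tr (P.al m) (U P m ω') j := by
      intro j hj1 hj2
      have h4 := hagree j (by omega) (by omega)
      have h5 := congrArg Fin.val h4
      exact h5.symm
    have h6 : φ (Y P ω') 0 = φ (Y P ω) 0 := by
      apply h2
      intro i hi1 hi2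
      exact (Y_det P hm1 hg hg' hx2 hy2 h3 (by omega) (by omega)).symm
    have h7 := (hω 0).2
    have h8 := (hω' 0).2
    rw [sh_zero] at h7 h8
    simp only [← h7, ← h8, h6]

end nofactor

/-- There is a non-trivial stationary process `ν` with two symbols that is a finitary factor of
the i.i.d. process with uniform marginal on eight symbols, such that every i.i.d. process (over any
finite alphabet) that is a finitary factor of `ν` is trivial. -/
theorem result :
    ∃ ν : Measure (ℤ → Bool), IsProcess ν ∧ ¬ IsTrivial ν ∧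
      IsFinitaryFactor ν (iid (PMF.uniformOfFintype (Bool × Bool × Bool)).toMeasure) ∧
      ∀ (B : Type) [Fintype B] [MeasurableSpace B] [MeasurableSingletonClass B]
        (q : Measure B) [IsProbabilityMeasure q],
        IsFinitaryFactor (iid q) ν → IsTrivial (iid q) := by
  obtain ⟨P, h0, hG, hP⟩ := exists_par
  refine ⟨lawY P, isProcess_law P, nontrivial_law P h0, source_factor P hG, ?_⟩
  intro B _ _ _ q _ h
  exact no_iid h0 hG hP q h

end Pool.Agent.Results.MP_a0cf29_an.NoIidFactor
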